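import Pool.Agent.H65.NV.PTargets

/-!
# WTB: the average of an admissible weight over the last coefficient
-/

set_option autoImplicit false

open MeasureTheory Set Filter NumberField NumberField.InfinitePlace
open Pool.Agent.H65.CM4 Pool.Agent.H61.NVK Pool.Agent.H89.NV Pool.Agent.H65.NV
open scoped Real

namespace Pool.Agent.H26.NVP_WTB

variable (k : Type) [Field k] [NumberField k] [IsTotallyReal k]

theorem nm_pos (q : Ideal (𝓞 k)) (hq : q ≠ ⊥) : 0 < nm q := by
  unfold nm
  have : Ideal.absNorm q ≠ 0 := by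
    rw [Ne, Ideal.absNorm_eq_zero_iff]
    exact hq
  exact_mod_cast Nat.pos_of_ne_zero this

theorem pf_WTB (hRSF : T_RSF k) (hEMS : T_EMS k) : T_WTB k := by
  classical
  intro f q K w e A hf hq hA hw
  have hΛ : A * f ^ 2 ≠ ⊥ := mul_ne_zero hA (pow_ne_zero 2 hf)
  obtain ⟨-, hc1, hc2⟩ := hRSF q (A * f ^ 2) hq hΛ
    ((Rs (q * (A * f ^ 2))).filter (fun c => c ∈ A * f ^ 2)) (fun x => Finset.mem_filter)
  obtain ⟨-, hb1, -⟩ := hRSF q f hq hf ((Rs (q * f)).filter (fun b => b ∈ f))
    (fun x => Finset.mem_filter)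
  have hlef : A * f ≤ f := Ideal.mul_le_right
  refine ⟨fun b hb x hx => ?_, fun b hb x hx => ?_, ?_⟩
  · refine Finset.sum_congr rfl fun c hc => ?_
    exact hw.perB e A b c hb (Finset.mem_filter.1 hc).2 x hx
  · obtain ⟨j, hj, hxj⟩ := (hEMS.2.2.2.2.2.2.2.2.2.2 2 (A * f) x).1 hx
    have hx2 : x = 2 * j := by
      rw [hxj]
      norm_num
    subst hx2
    have hbj : b + 2 * j ∈ f := add_mem hb (Ideal.mul_mem_left _ _ (hlef hj))
    have hz : j ^ 2 + b * j ∈ A * f ^ 2 := by
      refine add_mem ?_ ?_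
      · have h1 : j * j ∈ f * (A * f) := Ideal.mul_mem_mul (hlef hj) hj
        have h2 : f * (A * f) = A * f ^ 2 := by ring
        rw [h2] at h1
        rwa [sq j]
      · have h1 : b * j ∈ f * (A * f) := Ideal.mul_mem_mul hb hj
        have h2 : f * (A * f) = A * f ^ 2 := by ring
        rwa [h2] at h1
    rw [← (hc2 (fun c => w e A (b + 2 * j) c) (fun c hc y hy => hw.perC e A _ c hbj hc y hy)).1 _ hz]
    refine Finset.sum_congr rfl fun c hc => ?_
    have h1 := hw.inv e A b c hb (Finset.mem_filter.1 hc).2 j hj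
    rw [← h1]
    change w e A (b + 2 * j) (c + (j ^ 2 + b * j)) = _
    rw [add_comm c]
  · have hnm := nm_pos k q hq
    have hK : 0 ≤ K := (abs_nonneg _).trans (hw.bd e A 0 0)
    unfold wbar
    rw [abs_mul, abs_of_pos (by positivity : 0 < 1 / nm q ^ 2)]
    have h1 : |∑ b ∈ (Rs (q * f)).filter (fun b => b ∈ f),
        ∑ c ∈ (Rs (q * (A * f ^ 2))).filter (fun c => c ∈ A * f ^ 2), w e A b c| ≤
        nm q * (nm q * K) := by
      refine (Finset.abs_sum_le_sum_abs _ _).trans ?_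
      have h2 : ∀ b ∈ (Rs (q * f)).filter (fun b => b ∈ f),
          |∑ c ∈ (Rs (q * (A * f ^ 2))).filter (fun c => c ∈ A * f ^ 2), w e A b c| ≤
            nm q * K := by
        intro b _
        refine (Finset.abs_sum_le_sum_abs _ _).trans ?_
        refine (Finset.sum_le_card_nsmul _ _ K fun c _ => hw.bd e A b c).trans ?_
        rw [nsmul_eq_mul, hc1]
      refine (Finset.sum_le_card_nsmul _ _ _ h2).trans ?_
      rw [nsmul_eq_mul, hb1]
    calc 1 / nm q ^ 2 * _ ≤ 1 / nm q ^ 2 * (nm q * (nm q * K)) := by gcongr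
      _ = K := by
        field_simp

end Pool.Agent.H26.NVP_WTB
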